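import Mathlib

/-!
The containment `I^(m) ⊆ 𝔪^(re - r) I^r` (`m ≥ re`, `e` the big height of `I`) fails in regular
local rings for all `e ≥ 2` and `r ≥ 2`.

For every field `k` and all `n > e ≥ 2`, the localisation `R` of `k[x_1, ..., x_n]` at the origin
(a regular local ring of dimension `n`) contains a prime ideal `P` of height `e` such that `P^(re)`
is not contained in `𝔪^(re - r) P^r` for any `r ≥ 2`.

The prime is the ideal of the monomial curve `(t^(2e+1), t^(2e+2), t^((2e+1)(2e+2)-(4e+3)))`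
(for `e = 2` this is `(t^5, t^6, t^19)`), with `e - 2` further variables put equal to `0` and the
remaining ones left free.  With `n₁ = 2e+1`, `n₂ = 2e+2`, `g₁ = xz - y^(n₁-1)`,
`g₂ = yz - x^(n₂-1)` there is for each `1 ≤ N ≤ n₁` a polynomial `F_N` with
`(x^n₂ - y^n₁) F_N = x^(n₂-N) g₁^N - y^(n₁-N) g₂^N`; it satisfies `y^N F_N ∈ P^(N-1)`, so it lies in
the symbolic power of exponent `N - 1`, while its restriction to the `z`-axis is `z^N`, and every
element of `P` restricts to a multiple of `z^2` there.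
-/

namespace Pool.Agent.Results.MP_c6dab2_ag.LocalContainmentFails

universe u

open IsLocalRing

/-- The `m`-th symbolic power of `I`: the intersection, over the minimal primes `P` of `I`, of the
contractions to `R` of the ideals `I ^ m R_P`. -/
noncomputable def symbolicPower {R : Type u} [CommRing R] (I : Ideal R) (m : ℕ) : Ideal R :=
  ⨅ P : {P : Ideal R // P ∈ I.minimalPrimes},
    haveI : P.1.IsPrime := P.2.1.1
    ((I ^ m).map (algebraMap R (Localization.AtPrime P.1))).comap
      (algebraMap R (Localization.AtPrime P.1))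

/-- The big height of `I`: the supremum of the heights of the minimal primes of `I`. -/
noncomputable def bigHeight {R : Type u} [CommRing R] (I : Ideal R) : ℕ∞ :=
  ⨆ P ∈ I.minimalPrimes, P.height

section Algebra

variable {A : Type u} [CommRing A]

/-- Divisibility behind the construction. -/
lemma dvd_main (x y z : A) (n₁ n₂ N : ℕ) (h1 : N ≤ n₁) (h2 : N ≤ n₂) :
    (x ^ n₂ - y ^ n₁) ∣
      x ^ (n₂ - N) * (x * z - y ^ (n₁ - 1)) ^ N - y ^ (n₁ - N) * (y * z - x ^ (n₂ - 1)) ^ N := by
  rw [sub_eq_add_neg (x * z), sub_eq_add_neg (y * z), add_pow, add_pow, Finset.mul_sum,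
    Finset.mul_sum, ← Finset.sum_sub_distrib]
  apply Finset.dvd_sum
  intro m hm
  have hm' : m ≤ N := by simpa [Nat.lt_succ_iff] using hm
  obtain ⟨i, rfl⟩ := Nat.exists_eq_add_of_le hm'
  obtain ⟨a, rfl⟩ := Nat.exists_eq_add_of_le h1
  obtain ⟨b, rfl⟩ := Nat.exists_eq_add_of_le h2
  rcases i with _ | i
  · have e1 : m + 0 + b - (m + 0) = b := by omega
    have e2 : m + 0 + a - (m + 0) = a := by omega
    rw [e1, e2]
    refine ⟨z ^ m * ((m + 0).choose m : A), ?_⟩
    simp only [Nat.sub_self, Nat.add_zero, pow_zero]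
    ring
  · have e1 : m + (i + 1) + b - (m + (i + 1)) = b := by omega
    have e2 : m + (i + 1) + a - (m + (i + 1)) = a := by omega
    have e3 : m + (i + 1) - m = i + 1 := by omega
    have e4 : m + (i + 1) + a - 1 = m + i + a := by omega
    have e5 : m + (i + 1) + b - 1 = m + i + b := by omega
    rw [e1, e2, e3, e4, e5]
    have key := sub_dvd_pow_sub_pow (x ^ (m + (i + 1) + b)) (y ^ (m + (i + 1) + a)) i
    obtain ⟨c, hc⟩ := key
    refine ⟨-(c * (-1) ^ (i + 1) * z ^ m * x ^ (b + m) * y ^ (a + m) *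
      ((m + (i + 1)).choose m : A)), ?_⟩
    have h3 : (x ^ (m + (i + 1) + b) - y ^ (m + (i + 1) + a)) *
        -(c * (-1) ^ (i + 1) * z ^ m * x ^ (b + m) * y ^ (a + m) * ((m + (i + 1)).choose m : A)) =
        -(((x ^ (m + (i + 1) + b) - y ^ (m + (i + 1) + a)) * c) * ((-1) ^ (i + 1) * z ^ m *
          x ^ (b + m) * y ^ (a + m) * ((m + (i + 1)).choose m : A))) := by ring
    rw [h3, ← hc, neg_pow (y ^ (m + i + a)), neg_pow (x ^ (m + i + b))]
    simp only [← pow_mul]
    ring

lemma mem_main [IsDomain A] (P : Ideal A) (x y z F : A) (n₁ n₂ N : ℕ) (h0 : 1 ≤ N)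
    (h1 : N ≤ n₁) (h2 : N ≤ n₂)
    (hg1 : x * z - y ^ (n₁ - 1) ∈ P) (hg2 : y * z - x ^ (n₂ - 1) ∈ P)
    (hq : x ^ n₂ - y ^ n₁ ≠ 0)
    (hF : x ^ (n₂ - N) * (x * z - y ^ (n₁ - 1)) ^ N - y ^ (n₁ - N) * (y * z - x ^ (n₂ - 1)) ^ N =
      (x ^ n₂ - y ^ n₁) * F) :
    y ^ N * F ∈ P ^ (N - 1) := by
  set g₁ := x * z - y ^ (n₁ - 1) with hg₁
  set g₂ := y * z - x ^ (n₂ - 1) with hg₂
  have hrel : y * g₁ - x * g₂ = x ^ n₂ - y ^ n₁ := by
    have e1 : y * y ^ (n₁ - 1) = y ^ n₁ := by rw [← pow_succ']; congr 1; omega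
    have e2 : x * x ^ (n₂ - 1) = x ^ n₂ := by rw [← pow_succ']; congr 1; omega
    rw [hg₁, hg₂]
    linear_combination e2 - e1
  clear_value g₁ g₂
  have hS : (∑ i ∈ Finset.range N, (y * g₁) ^ i * (x * g₂) ^ (N - 1 - i)) * (x ^ n₂ - y ^ n₁) =
      (y * g₁) ^ N - (x * g₂) ^ N := by
    rw [← hrel]; exact geom_sum₂_mul _ _ _
  obtain ⟨S, hSdef⟩ : ∃ S, S = ∑ i ∈ Finset.range N, (y * g₁) ^ i * (x * g₂) ^ (N - 1 - i) :=
    ⟨_, rfl⟩
  rw [← hSdef] at hS
  have hy : y ^ N * y ^ (n₁ - N) = y ^ n₁ := by rw [← pow_add]; congr 1; omega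
  have hx : x ^ N * x ^ (n₂ - N) = x ^ n₂ := by rw [← pow_add]; congr 1; omega
  have hmain : y ^ N * F = x ^ (n₂ - N) * S + g₂ ^ N := by
    apply mul_left_cancel₀ hq
    calc (x ^ n₂ - y ^ n₁) * (y ^ N * F) = y ^ N * ((x ^ n₂ - y ^ n₁) * F) := by ring
      _ = y ^ N * (x ^ (n₂ - N) * g₁ ^ N - y ^ (n₁ - N) * g₂ ^ N) := by rw [hF]
      _ = x ^ (n₂ - N) * ((y * g₁) ^ N) - (y ^ N * y ^ (n₁ - N)) * g₂ ^ N := by ring
      _ = x ^ (n₂ - N) * (S * (x ^ n₂ - y ^ n₁) + (x * g₂) ^ N) - y ^ n₁ * g₂ ^ N := by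
          rw [hS, hy]; ring
      _ = x ^ (n₂ - N) * S * (x ^ n₂ - y ^ n₁) + (x ^ N * x ^ (n₂ - N)) * g₂ ^ N
            - y ^ n₁ * g₂ ^ N := by ring
      _ = (x ^ n₂ - y ^ n₁) * (x ^ (n₂ - N) * S + g₂ ^ N) := by rw [hx]; ring
  rw [hmain]
  apply Ideal.add_mem
  · apply Ideal.mul_mem_left
    rw [hSdef]
    apply Ideal.sum_mem
    intro i hi
    have hi' : i < N := Finset.mem_range.mp hi
    have : P ^ (N - 1) = P ^ i * P ^ (N - 1 - i) := by rw [← pow_add]; congr 1; omega
    rw [this]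
    exact Ideal.mul_mem_mul (Ideal.pow_mem_pow (P.mul_mem_left _ hg1) _)
      (Ideal.pow_mem_pow (P.mul_mem_left _ hg2) _)
  · exact Ideal.pow_le_pow_right (Nat.sub_le N 1) (Ideal.pow_mem_pow hg2 N)

end Algebra

section Curve

variable (k : Type u) [Field k] (d c : ℕ)

/-- the polynomial ring in `d + 3` variables -/
abbrev Poly : Type u := MvPolynomial (Fin (d + 3)) k

/-- auxiliary target ring -/
abbrev Tgt : Type u := MvPolynomial (Option (Fin (d + 3))) k

/-- images of the variables under the `j`-th map -/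
noncomputable def img (j : ℕ) : Fin (d + 3) → Tgt k d :=
  Fin.cons (MvPolynomial.X none ^ (2 * c + 5))
    (Fin.cons (MvPolynomial.X none ^ (2 * c + 6))
      (Fin.cons (if j = 0 then MvPolynomial.X (some (Fin.succ (Fin.succ 0)))
          else MvPolynomial.X none ^ (4 * c ^ 2 + 18 * c + 19))
        (fun i : Fin d => if (i : ℕ) + 1 < j then 0
          else MvPolynomial.X (some (Fin.succ (Fin.succ (Fin.succ i)))))))

/-- the `j`-th map -/
noncomputable def psi (j : ℕ) : Poly k d →ₐ[k] Tgt k d := MvPolynomial.aeval (img k d c j)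

/-- image of the `some` variables under theta -/
noncomputable def timg (j : ℕ) : Fin (d + 3) → Tgt k d :=
  Fin.cons 0 (Fin.cons 0 (Fin.cons (MvPolynomial.X none ^ (4 * c ^ 2 + 18 * c + 19))
        (fun i : Fin d => if (i : ℕ) + 1 < j + 1 then 0
          else MvPolynomial.X (some (Fin.succ (Fin.succ (Fin.succ i)))))))

noncomputable def theta (j : ℕ) : Tgt k d →ₐ[k] Tgt k d :=
  MvPolynomial.aeval (fun o => Option.elim o (MvPolynomial.X none) (timg k d c j))

lemma img_x (j : ℕ) : img k d c j 0 = MvPolynomial.X none ^ (2 * c + 5) := rfl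

lemma img_y (j : ℕ) : img k d c j (Fin.succ 0) = MvPolynomial.X none ^ (2 * c + 6) := rfl

lemma img_z (j : ℕ) : img k d c j (Fin.succ (Fin.succ 0)) =
    if j = 0 then MvPolynomial.X (some (Fin.succ (Fin.succ 0)))
      else MvPolynomial.X none ^ (4 * c ^ 2 + 18 * c + 19) := rfl

lemma img_w (j : ℕ) (i : Fin d) : img k d c j (Fin.succ (Fin.succ (Fin.succ i))) =
    if (i : ℕ) + 1 < j then 0
      else MvPolynomial.X (some (Fin.succ (Fin.succ (Fin.succ i)))) := rfl

lemma theta_T (j : ℕ) : theta k d c j (MvPolynomial.X none) = MvPolynomial.X none := by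
  rw [theta, MvPolynomial.aeval_X, Option.elim_none]

lemma theta_z (j : ℕ) : theta k d c j (MvPolynomial.X (some (Fin.succ (Fin.succ 0)))) =
    MvPolynomial.X none ^ (4 * c ^ 2 + 18 * c + 19) := by
  rw [theta, MvPolynomial.aeval_X, Option.elim_some]; rfl

lemma theta_w (j : ℕ) (i : Fin d) :
    theta k d c j (MvPolynomial.X (some (Fin.succ (Fin.succ (Fin.succ i))))) =
    if (i : ℕ) + 1 < j + 1 then 0
      else MvPolynomial.X (some (Fin.succ (Fin.succ (Fin.succ i)))) := by
  rw [theta, MvPolynomial.aeval_X, Option.elim_some]; rfl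

lemma theta_comp_psi (j : ℕ) : (theta k d c j).comp (psi k d c j) = psi k d c (j + 1) := by
  apply MvPolynomial.algHom_ext
  intro i
  simp only [AlgHom.comp_apply, psi, MvPolynomial.aeval_X]
  refine Fin.cases ?_ (fun i => ?_) i
  · rw [img_x, img_x, map_pow, theta_T]
  refine Fin.cases ?_ (fun i => ?_) i
  · rw [img_y, img_y, map_pow, theta_T]
  refine Fin.cases ?_ (fun i => ?_) i
  · rw [img_z, img_z, if_neg (Nat.succ_ne_zero j)]
    by_cases hj : j = 0
    · rw [if_pos hj, theta_z]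
    · rw [if_neg hj, map_pow, theta_T]
  · rw [img_w, img_w]
    by_cases h1 : (i : ℕ) + 1 < j
    · have h2 : (i : ℕ) + 1 < j + 1 := by omega
      rw [if_pos h1, if_pos h2, map_zero]
    · rw [if_neg h1, theta_w]

/-- the chain of primes -/
noncomputable def pr (j : ℕ) : Ideal (Poly k d) := RingHom.ker (psi k d c j)

instance pr_isPrime (j : ℕ) : (pr k d c j).IsPrime := RingHom.ker_isPrime _

lemma pr_le (j : ℕ) : pr k d c j ≤ pr k d c (j + 1) := by
  intro a ha
  have ha' : psi k d c j a = 0 := ha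
  show psi k d c (j + 1) a = 0
  rw [← theta_comp_psi, AlgHom.comp_apply, ha', map_zero]

/-- the variables x, y, z -/
noncomputable def vx : Poly k d := MvPolynomial.X 0
noncomputable def vy : Poly k d := MvPolynomial.X (Fin.succ 0)
noncomputable def vz : Poly k d := MvPolynomial.X (Fin.succ (Fin.succ 0))

lemma psi_vx (j : ℕ) : psi k d c j (vx k d) = MvPolynomial.X none ^ (2 * c + 5) := by
  simp [psi, vx, img]

lemma psi_vy (j : ℕ) : psi k d c j (vy k d) = MvPolynomial.X none ^ (2 * c + 6) := by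
  rw [psi, vy, MvPolynomial.aeval_X, img, Fin.cons_succ, Fin.cons_zero]

lemma psi_vz (j : ℕ) : psi k d c j (vz k d) = if j = 0 then
    MvPolynomial.X (some (Fin.succ (Fin.succ 0)))
    else MvPolynomial.X none ^ (4 * c ^ 2 + 18 * c + 19) := by
  rw [psi, vz, MvPolynomial.aeval_X, img, Fin.cons_succ, Fin.cons_succ, Fin.cons_zero]

lemma q_mem (j : ℕ) : vx k d ^ (2 * c + 6) - vy k d ^ (2 * c + 5) ∈ pr k d c j := by
  show psi k d c j _ = 0
  rw [map_sub, map_pow, map_pow, psi_vx, psi_vy, ← pow_mul, ← pow_mul, mul_comm, sub_self]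

lemma g1_mem (j : ℕ) (hj : j ≠ 0) :
    vx k d * vz k d - vy k d ^ (2 * c + 5 - 1) ∈ pr k d c j := by
  show psi k d c j _ = 0
  rw [map_sub, map_pow, map_mul, psi_vx, psi_vy, psi_vz, if_neg hj, ← pow_mul, ← pow_add]
  have : 2 * c + 5 + (4 * c ^ 2 + 18 * c + 19) = (2 * c + 6) * (2 * c + 5 - 1) := by
    have : 2 * c + 5 - 1 = 2 * c + 4 := by omega
    rw [this]; ring
  rw [this, sub_self]

lemma g2_mem (j : ℕ) (hj : j ≠ 0) :
    vy k d * vz k d - vx k d ^ (2 * c + 6 - 1) ∈ pr k d c j := by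
  show psi k d c j _ = 0
  rw [map_sub, map_pow, map_mul, psi_vx, psi_vy, psi_vz, if_neg hj, ← pow_mul, ← pow_add]
  have : 2 * c + 6 + (4 * c ^ 2 + 18 * c + 19) = (2 * c + 5) * (2 * c + 6 - 1) := by
    have : 2 * c + 6 - 1 = 2 * c + 5 := by omega
    rw [this]; ring
  rw [this, sub_self]

lemma q_ne_zero : vx k d ^ (2 * c + 6) - vy k d ^ (2 * c + 5) ≠ 0 := by
  intro h
  have h2 := congrArg (MvPolynomial.aeval (Fin.cons (1 : k) (fun _ => 0)) : Poly k d →ₐ[k] k) h
  rw [map_sub, map_pow, map_pow, vx, vy, MvPolynomial.aeval_X, MvPolynomial.aeval_X,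
    Fin.cons_zero, Fin.cons_succ, map_zero] at h2
  simp at h2

lemma vy_not_mem (j : ℕ) : vy k d ∉ pr k d c j := by
  intro h
  have h' : psi k d c j (vy k d) = 0 := h
  rw [psi_vy] at h'
  exact pow_ne_zero _ (MvPolynomial.X_ne_zero _) h'

lemma vx_not_mem (j : ℕ) : vx k d ∉ pr k d c j := by
  intro h
  have h' : psi k d c j (vx k d) = 0 := h
  rw [psi_vx] at h'
  exact pow_ne_zero _ (MvPolynomial.X_ne_zero _) h'

lemma pr_lt (j : ℕ) (hj : j ≤ d) : pr k d c j < pr k d c (j + 1) := by
  refine lt_of_le_of_ne (pr_le k d c j) ?_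
  intro heq
  rcases j with _ | j
  · have h1 := g1_mem k d c (0 + 1) (by omega)
    rw [← heq] at h1
    have h2 : psi k d c 0 (vx k d * vz k d - vy k d ^ (2 * c + 5 - 1)) = 0 := h1
    rw [map_sub, map_pow, map_mul, psi_vx, psi_vy, psi_vz, if_pos rfl] at h2
    have h3 := congrArg (MvPolynomial.aeval (fun o => Option.elim o (1 : k) (fun _ => 0)) :
      Tgt k d →ₐ[k] k) h2
    simp at h3
  · have hjd : j < d := by omega
    have h1 : (MvPolynomial.X (Fin.succ (Fin.succ (Fin.succ ⟨j, hjd⟩))) : Poly k d) ∈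
        pr k d c (j + 1 + 1) := by
      show psi k d c (j + 1 + 1) _ = 0
      rw [psi, MvPolynomial.aeval_X, img, Fin.cons_succ, Fin.cons_succ, Fin.cons_succ]
      simp
    rw [← heq] at h1
    have h2 : psi k d c (j + 1)
      (MvPolynomial.X (Fin.succ (Fin.succ (Fin.succ ⟨j, hjd⟩))) : Poly k d) = 0 := h1
    rw [psi, MvPolynomial.aeval_X, img, Fin.cons_succ, Fin.cons_succ, Fin.cons_succ] at h2
    simp only [lt_self_iff_false, if_false] at h2
    exact MvPolynomial.X_ne_zero _ h2

lemma height_pr_ge (j : ℕ) (hj : j ≤ d + 1) : ((j + 1 : ℕ) : ℕ∞) ≤ (pr k d c j).height := by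
  induction j with
  | zero =>
    have h0 : (⊥ : Ideal (Poly k d)) < pr k d c 0 := by
      refine lt_of_le_of_ne bot_le ?_
      intro h
      have := q_mem k d c 0
      rw [← h, Ideal.mem_bot] at this
      exact q_ne_zero k d c this
    have := Ideal.height_add_one_le_of_lt_of_isPrime h0
    simpa using this
  | succ j ih =>
    have h1 := ih (by omega)
    have h2 := Ideal.height_add_one_le_of_lt_of_isPrime (pr_lt k d c j (by omega))
    refine le_trans ?_ h2
    push_cast at h1 ⊢
    exact add_le_add_left h1 1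

/-- the origin -/
noncomputable def org : Ideal (Poly k d) :=
  RingHom.ker (MvPolynomial.constantCoeff : Poly k d →+* k)

instance org_isPrime : (org k d).IsPrime := RingHom.ker_isPrime _

lemma pr_le_org (j : ℕ) (hj : j ≠ 0) : pr k d c j ≤ org k d := by
  intro a ha
  have ha' : psi k d c j a = 0 := ha
  show MvPolynomial.constantCoeff a = 0
  have hcomp : (MvPolynomial.aeval (fun _ => (0 : k)) : Tgt k d →ₐ[k] k).comp (psi k d c j) =
      (MvPolynomial.aeval (fun _ => (0 : k)) : Poly k d →ₐ[k] k) := by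
    apply MvPolynomial.algHom_ext
    intro i
    simp only [AlgHom.comp_apply, psi, MvPolynomial.aeval_X]
    refine Fin.cases ?_ (fun i => ?_) i
    · rw [img_x]; simp
    refine Fin.cases ?_ (fun i => ?_) i
    · rw [img_y]; simp
    refine Fin.cases ?_ (fun i => ?_) i
    · rw [img_z, if_neg hj]; simp
    · rw [img_w]
      by_cases h1 : (i : ℕ) + 1 < j
      · rw [if_pos h1]; simp
      · rw [if_neg h1]; simp
  have h2 := congrArg (fun f => f a) hcomp
  simp only [AlgHom.comp_apply, ha', map_zero] at h2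
  rw [MvPolynomial.aeval_zero'] at h2
  simpa using h2.symm

lemma pr_lt_org (j : ℕ) (hj : j ≠ 0) : pr k d c j < org k d := by
  refine lt_of_le_of_ne (pr_le_org k d c _ hj) ?_
  intro h
  have h1 : vx k d ∈ org k d := by
    show MvPolynomial.constantCoeff (vx k d) = 0
    simp [vx]
  rw [← h] at h1
  exact vx_not_mem k d c _ h1

lemma height_org_le : (org k d).height ≤ ((d + 3 : ℕ) : ℕ∞) := by
  have h1 := Ideal.height_le_ringKrullDim_of_isPrime (I := org k d)
  rw [MvPolynomial.ringKrullDim_of_isNoetherianRing, ringKrullDim_eq_zero_of_field] at h1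
  simp only [Nat.card_eq_fintype_card, Fintype.card_fin, zero_add] at h1
  exact WithBot.coe_le_coe.mp h1

lemma height_pr_add_le (i j : ℕ) (hij : i + j = d + 1) :
    (pr k d c j).height + ((i + 1 : ℕ) : ℕ∞) ≤ ((d + 3 : ℕ) : ℕ∞) := by
  induction i generalizing j with
  | zero =>
    have h1 := Ideal.height_add_one_le_of_lt_of_isPrime (pr_lt_org k d c j (by omega))
    simpa using h1.trans (height_org_le k d)
  | succ i ih =>
    have h1 := ih (j + 1) (by omega)
    have h2 := Ideal.height_add_one_le_of_lt_of_isPrime (pr_lt k d c j (by omega))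
    refine le_trans ?_ h1
    have h3 : (pr k d c j).height + ((i + 1 + 1 : ℕ) : ℕ∞) =
        (pr k d c j).height + 1 + ((i + 1 : ℕ) : ℕ∞) := by
      push_cast; ring
    rw [h3]
    exact add_le_add_left h2 _

lemma height_pr (j : ℕ) (hj : j ≤ d + 1) : (pr k d c j).height = ((j + 1 : ℕ) : ℕ∞) := by
  apply le_antisymm
  · obtain ⟨i, hi⟩ := Nat.exists_eq_add_of_le' hj
    have h1 := height_pr_add_le k d c i j hi.symm
    have h3 : ((d + 3 : ℕ) : ℕ∞) = ((j + 1 : ℕ) : ℕ∞) + ((i + 1 : ℕ) : ℕ∞) := by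
      rw [← Nat.cast_add]; congr 1; omega
    rw [h3] at h1
    exact (ENat.add_le_add_iff_right (by simp)).mp h1
  · exact height_pr_ge k d c j hj

lemma height_org : (org k d).height = ((d + 3 : ℕ) : ℕ∞) := by
  apply le_antisymm (height_org_le k d)
  have h1 := Ideal.height_add_one_le_of_lt_of_isPrime (pr_lt_org k d d (d + 1) (by omega))
  rw [height_pr _ _ _ _ le_rfl] at h1
  have h2 : ((d + 1 + 1 : ℕ) : ℕ∞) + 1 = ((d + 3 : ℕ) : ℕ∞) := by push_cast; ring
  exact h2 ▸ h1

/-- restriction to the z-axis -/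
noncomputable def axis : Poly k d →ₐ[k] PowerSeries k :=
  MvPolynomial.aeval (Fin.cons 0 (Fin.cons 0 (Fin.cons PowerSeries.X (fun _ : Fin d => 0))))

/-- the parametrisation of the curve -/
noncomputable def par : Poly k d →ₐ[k] Polynomial k :=
  MvPolynomial.aeval (Fin.cons (Polynomial.X ^ (2 * c + 5))
    (Fin.cons (Polynomial.X ^ (2 * c + 6)) (Fin.cons (Polynomial.X ^ (4 * c ^ 2 + 18 * c + 19))
      (fun _ : Fin d => 0))))

lemma par_eq_zero {a : Poly k d} (ha : a ∈ pr k d c (c + 1)) : par k d c a = 0 := by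
  have ha' : psi k d c (c + 1) a = 0 := ha
  have hcomp : (MvPolynomial.aeval (fun o => Option.elim o (Polynomial.X : Polynomial k)
      (fun _ => 0)) : Tgt k d →ₐ[k] Polynomial k).comp (psi k d c (c + 1)) = par k d c := by
    apply MvPolynomial.algHom_ext
    intro i
    simp only [AlgHom.comp_apply, psi, par, MvPolynomial.aeval_X]
    refine Fin.cases ?_ (fun i => ?_) i
    · rw [img_x, map_pow, MvPolynomial.aeval_X, Option.elim_none, Fin.cons_zero]
    refine Fin.cases ?_ (fun i => ?_) i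
    · rw [img_y, map_pow, MvPolynomial.aeval_X, Option.elim_none, Fin.cons_succ, Fin.cons_zero]
    refine Fin.cases ?_ (fun i => ?_) i
    · rw [img_z, if_neg (by omega), map_pow, MvPolynomial.aeval_X, Option.elim_none,
        Fin.cons_succ, Fin.cons_succ, Fin.cons_zero]
    · rw [img_w, Fin.cons_succ, Fin.cons_succ, Fin.cons_succ]
      by_cases h1 : (i : ℕ) + 1 < c + 1
      · rw [if_pos h1, map_zero]
      · rw [if_neg h1, MvPolynomial.aeval_X, Option.elim_some]
  rw [← hcomp, AlgHom.comp_apply, ha', map_zero]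

lemma arith (a b t : ℕ) (h : (2 * c + 5) * a + ((2 * c + 6) * b + (4 * c ^ 2 + 18 * c + 19) * t) =
    4 * c ^ 2 + 18 * c + 19) : a = 0 ∧ b = 0 ∧ t = 1 := by
  have ht : t ≤ 1 := by
    by_contra ht
    have : 2 ≤ t := by omega
    nlinarith
  interval_cases t
  · exfalso
    have h1 : (2 * c + 5) * (a + b) + b + (2 * c + 6) = (2 * c + 5) * (2 * c + 5) := by nlinarith
    have h2 : (2 * c + 5) ∣ (b + 1) := by
      have h3 : (2 * c + 5) ∣ (2 * c + 5) * (a + b) + (b + (2 * c + 6)) :=
        ⟨2 * c + 5, by rw [← h1]; ring⟩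
      have h4 := (Nat.dvd_add_right (Dvd.intro (a + b) rfl)).mp h3
      have h5 : b + (2 * c + 6) = (2 * c + 5) + (b + 1) := by ring
      rw [h5] at h4
      exact (Nat.dvd_add_right (dvd_refl _)).mp h4
    have h6 := Nat.le_of_dvd (by omega) h2
    nlinarith
  · refine ⟨?_, ?_, rfl⟩
    · by_contra ha
      have : 1 ≤ a := Nat.one_le_iff_ne_zero.mpr ha
      nlinarith
    · by_contra hb
      have : 1 ≤ b := Nat.one_le_iff_ne_zero.mpr hb
      nlinarith

lemma coeff_axis (a : Poly k d) :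
    PowerSeries.coeff 1 (axis k d a) = (par k d c a).coeff (4 * c ^ 2 + 18 * c + 19) := by
  induction a using MvPolynomial.induction_on' with
  | add p q hp hq => rw [map_add, map_add, map_add, Polynomial.coeff_add, hp, hq]
  | monomial u t =>
    rw [axis, par, MvPolynomial.aeval_monomial, MvPolynomial.aeval_monomial,
      Finsupp.prod_fintype _ _ (fun i => pow_zero _), Finsupp.prod_fintype _ _ (fun i => pow_zero _)]
    simp only [Fin.prod_univ_succ (n := d + 2), Fin.prod_univ_succ (n := d + 1),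
      Fin.prod_univ_succ (n := d), Fin.cons_zero, Fin.cons_succ]
    rw [Polynomial.algebraMap_eq, Polynomial.coeff_C_mul, PowerSeries.algebraMap_apply,
      Algebra.algebraMap_self, RingHom.id_apply, PowerSeries.coeff_C_mul]
    congr 1
    by_cases hz : ∀ i : Fin d, u (Fin.succ (Fin.succ (Fin.succ i))) = 0
    · simp only [hz, pow_zero, Finset.prod_const_one, mul_one, ← pow_mul, ← pow_add]
      rw [Polynomial.coeff_X_pow]
      by_cases h : 4 * c ^ 2 + 18 * c + 19 = (2 * c + 5) * u 0 + ((2 * c + 6) * u (Fin.succ 0) +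
          (4 * c ^ 2 + 18 * c + 19) * u (Fin.succ (Fin.succ 0)))
      · obtain ⟨h0, h1, h2⟩ := arith c _ _ _ h.symm
        rw [if_pos h, h0, h1, h2, pow_zero, one_mul, one_mul, pow_one, PowerSeries.coeff_one_X]
      · rw [if_neg h]
        by_cases h0 : u 0 = 0
        · by_cases h1 : u (Fin.succ 0) = 0
          · rw [h0, h1, pow_zero, one_mul, one_mul, PowerSeries.coeff_X_pow, if_neg]
            intro h2
            apply h
            rw [h0, h1, ← h2]
            ring
          · rw [zero_pow h1, zero_mul, mul_zero, map_zero]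
        · rw [zero_pow h0, zero_mul, map_zero]
    · push Not at hz
      obtain ⟨i, hi⟩ := hz
      rw [Finset.prod_eq_zero (Finset.mem_univ i) (zero_pow hi),
        Finset.prod_eq_zero (Finset.mem_univ i) (zero_pow hi)]
      simp

lemma constCoeff_axis (a : Poly k d) :
    PowerSeries.constantCoeff (axis k d a) = MvPolynomial.constantCoeff a := by
  induction a using MvPolynomial.induction_on with
  | C a => simp [axis]
  | add p q hp hq => rw [map_add, map_add, map_add, hp, hq]
  | mul_X p i hp =>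
    rw [map_mul, map_mul, map_mul, hp, MvPolynomial.constantCoeff_X, mul_zero]
    have : PowerSeries.constantCoeff (axis k d (MvPolynomial.X i)) = 0 := by
      rw [axis, MvPolynomial.aeval_X]
      refine Fin.cases ?_ (fun i => ?_) i
      · simp
      refine Fin.cases ?_ (fun i => ?_) i
      · simp
      refine Fin.cases ?_ (fun i => ?_) i
      · rw [Fin.cons_succ, Fin.cons_succ, Fin.cons_zero]; simp
      · rw [Fin.cons_succ, Fin.cons_succ, Fin.cons_succ]; simp
    rw [this, mul_zero]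

lemma axis_dvd {a : Poly k d} (ha : a ∈ pr k d c (c + 1)) :
    (PowerSeries.X : PowerSeries k) ^ 2 ∣ axis k d a := by
  rw [PowerSeries.X_pow_dvd_iff]
  intro m hm
  interval_cases m
  · rw [PowerSeries.coeff_zero_eq_constantCoeff_apply, constCoeff_axis]
    exact pr_le_org k d c _ (by omega) ha
  · rw [coeff_axis k d c, par_eq_zero k d c ha, Polynomial.coeff_zero]

/-- the key elements -/
lemma exists_F (N : ℕ) (h0 : 1 ≤ N) (h1 : N ≤ 2 * c + 5) : ∃ F : Poly k d,
    vy k d ^ N * F ∈ pr k d c (c + 1) ^ (N - 1) ∧ axis k d F = PowerSeries.X ^ N := by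
  obtain ⟨F, hF⟩ := dvd_main (vx k d) (vy k d) (vz k d) (2 * c + 5) (2 * c + 6) N h1 (by omega)
  refine ⟨F, ?_, ?_⟩
  · exact mem_main _ _ _ _ _ _ _ _ h0 h1 (by omega) (g1_mem k d c _ (by omega))
      (g2_mem k d c _ (by omega)) (q_ne_zero k d c) hF
  · have hdvd : vx k d ∣ vy k d ^ (2 * c + 5) * (F - vz k d ^ N) := by
      have e1 : vy k d ^ (2 * c + 5) * (F - vz k d ^ N) =
          vx k d ^ (2 * c + 6) * F -
          vx k d ^ (2 * c + 6 - N) * (vx k d * vz k d - vy k d ^ (2 * c + 5 - 1)) ^ N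
          + vy k d ^ (2 * c + 5 - N) * ((vy k d * vz k d - vx k d ^ (2 * c + 6 - 1)) ^ N
            - (vy k d * vz k d) ^ N) := by
        have e2 : vy k d ^ (2 * c + 5) = vy k d ^ (2 * c + 5 - N) * vy k d ^ N := by
          rw [← pow_add]; congr 1; omega
        have e3 : vy k d ^ (2 * c + 5) * vz k d ^ N =
            vy k d ^ (2 * c + 5 - N) * (vy k d * vz k d) ^ N := by rw [e2]; ring
        linear_combination hF - e3
      rw [e1]
      apply dvd_add
      · apply dvd_sub
        · exact Dvd.dvd.mul_right (dvd_pow_self _ (by omega)) _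
        · exact Dvd.dvd.mul_right (dvd_pow_self _ (by omega)) _
      · apply Dvd.dvd.mul_left
        have e4 := sub_dvd_pow_sub_pow (vy k d * vz k d - vx k d ^ (2 * c + 6 - 1))
          (vy k d * vz k d) N
        refine Dvd.dvd.trans ?_ e4
        have e5 : vy k d * vz k d - vx k d ^ (2 * c + 6 - 1) - vy k d * vz k d =
            - vx k d ^ (2 * c + 6 - 1) := by ring
        rw [e5, dvd_neg]
        exact dvd_pow_self _ (by omega)
    have hprime : Prime (vx k d) := MvPolynomial.X_prime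
    have hnot : ¬ vx k d ∣ vy k d ^ (2 * c + 5) := by
      intro h
      have := hprime.dvd_of_dvd_pow h
      rw [vx, vy, MvPolynomial.X_dvd_X] at this
      exact absurd this.symm (Fin.succ_ne_zero _)
    obtain ⟨w, hw⟩ := (hprime.dvd_or_dvd hdvd).resolve_left hnot
    have hFc : F = vx k d * w + vz k d ^ N := by rw [← hw]; ring
    have hx : axis k d (vx k d) = 0 := by
      rw [axis, vx, MvPolynomial.aeval_X, Fin.cons_zero]
    have hz : axis k d (vz k d) = PowerSeries.X := by
      rw [axis, vz, MvPolynomial.aeval_X, Fin.cons_succ, Fin.cons_succ, Fin.cons_zero]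
    rw [hFc, map_add, map_mul, map_pow, hx, hz, zero_mul, zero_add]

/-- the bad elements of the symbolic powers -/
lemma exists_G (r : ℕ) (hr : 2 ≤ r) : ∃ (G : Poly k d) (M s : ℕ),
    vy k d ^ M * G ∈ pr k d c (c + 1) ^ (r * (c + 2)) ∧ axis k d G = PowerSeries.X ^ s ∧
      s < r * (c + 2) + r := by
  obtain ⟨F, hF1, hF2⟩ := exists_F k d c (2 * c + 5) (by omega) le_rfl
  obtain ⟨H, hH1, hH2⟩ := exists_F k d c (c + 3) (by omega) (by omega)
  obtain ⟨j, rfl | rfl⟩ : ∃ j, r = 2 * j ∨ r = 2 * j + 1 := ⟨r / 2, by omega⟩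
  · refine ⟨F ^ j, (2 * c + 5) * j, (2 * c + 5) * j, ?_, ?_, ?_⟩
    · have e1 : vy k d ^ ((2 * c + 5) * j) * F ^ j = (vy k d ^ (2 * c + 5) * F) ^ j := by
        rw [mul_pow, ← pow_mul]
      have e2 : 2 * j * (c + 2) = (2 * c + 5 - 1) * j := by
        have : 2 * c + 5 - 1 = 2 * c + 4 := by omega
        rw [this]; ring
      rw [e1, e2, pow_mul]
      exact Ideal.pow_mem_pow hF1 j
    · rw [map_pow, hF2, ← pow_mul]
    · nlinarith
  · refine ⟨F ^ j * H, (2 * c + 5) * j + (c + 3), (2 * c + 5) * j + (c + 3), ?_, ?_, ?_⟩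
    · have e1 : vy k d ^ ((2 * c + 5) * j + (c + 3)) * (F ^ j * H) =
          (vy k d ^ (2 * c + 5) * F) ^ j * (vy k d ^ (c + 3) * H) := by
        rw [mul_pow, ← pow_mul, pow_add]; ring
      have e2 : (2 * j + 1) * (c + 2) = (2 * c + 5 - 1) * j + (c + 3 - 1) := by
        have : 2 * c + 5 - 1 = 2 * c + 4 := by omega
        rw [this]
        have : c + 3 - 1 = c + 2 := by omega
        rw [this]; ring
      rw [e1, e2, pow_add, pow_mul]
      exact Ideal.mul_mem_mul (Ideal.pow_mem_pow hF1 j) hH1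
    · rw [map_mul, map_pow, hF2, hH2, ← pow_mul, ← pow_add]
    · nlinarith

end Curve

section Local

variable (k : Type u) [Field k] (d c : ℕ)

/-- the local ring at the origin -/
abbrev Loc : Type u := Localization.AtPrime (org k d)

lemma disj : Disjoint ((org k d).primeCompl : Set (Poly k d))
    (pr k d c (c + 1) : Set (Poly k d)) := by
  rw [Set.disjoint_left]
  intro a ha hb
  exact ha (pr_le_org k d c _ (by omega) hb)

/-- the prime ideal of the curve in the local ring -/
noncomputable def PP : Ideal (Loc k d) :=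
  (pr k d c (c + 1)).map (algebraMap (Poly k d) (Loc k d))

instance PP_isPrime : (PP k d c).IsPrime :=
  IsLocalization.isPrime_of_isPrime_disjoint (org k d).primeCompl _ _ inferInstance (disj k d c)

lemma height_PP (hc : c ≤ d) : (PP k d c).height = ((c + 2 : ℕ) : ℕ∞) := by
  rw [PP, IsLocalization.height_map_of_disjoint (org k d).primeCompl _ (disj k d c), height_pr _ _ _ _ (by omega)]

lemma bigHeight_PP (hc : c ≤ d) : bigHeight (PP k d c) = ((c + 2 : ℕ) : ℕ∞) := by
  rw [bigHeight, Ideal.minimalPrimes_eq_subsingleton_self]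
  simp only [Set.mem_singleton_iff, iSup_iSup_eq_left]
  exact height_PP k d c hc

lemma axis_unit (s : (org k d).primeCompl) : IsUnit ((axis k d).toRingHom (s : Poly k d)) := by
  rw [PowerSeries.isUnit_iff_constantCoeff]
  have h : MvPolynomial.constantCoeff (s : Poly k d) ≠ 0 := fun h => s.2 h
  have h2 : PowerSeries.constantCoeff ((axis k d).toRingHom (s : Poly k d)) =
      MvPolynomial.constantCoeff (s : Poly k d) := constCoeff_axis k d s
  rw [h2]
  exact isUnit_iff_ne_zero.mpr h

/-- restriction to the z-axis on the local ring -/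
noncomputable def lax : Loc k d →+* PowerSeries k :=
  IsLocalization.lift (M := (org k d).primeCompl) (g := (axis k d).toRingHom) (axis_unit k d)

lemma lax_algebraMap (a : Poly k d) : lax k d (algebraMap _ _ a) = axis k d a :=
  IsLocalization.lift_eq _ a

lemma lax_PP : (PP k d c).map (lax k d) ≤ Ideal.span {(PowerSeries.X : PowerSeries k) ^ 2} := by
  rw [PP, Ideal.map_map, Ideal.map_le_iff_le_comap]
  intro a ha
  rw [Ideal.mem_comap, RingHom.comp_apply, lax_algebraMap, Ideal.mem_span_singleton]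
  exact axis_dvd k d c ha

lemma lax_max : (maximalIdeal (Loc k d)).map (lax k d) ≤
    Ideal.span {(PowerSeries.X : PowerSeries k)} := by
  rw [← Localization.AtPrime.map_eq_maximalIdeal, Ideal.map_map, Ideal.map_le_iff_le_comap]
  intro a ha
  rw [Ideal.mem_comap, RingHom.comp_apply, lax_algebraMap, Ideal.mem_span_singleton,
    PowerSeries.X_dvd_iff, constCoeff_axis]
  exact ha

lemma mem_symbolicPower_PP (a : Loc k d) (s : Loc k d) (hs : s ∉ PP k d c) (m : ℕ)
    (h : s * a ∈ PP k d c ^ m) : a ∈ symbolicPower (PP k d c) m := by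
  rw [symbolicPower, Ideal.mem_iInf]
  rintro ⟨Q, hQ⟩
  have hQ' : Q = PP k d c := by
    rw [Ideal.minimalPrimes_eq_subsingleton_self] at hQ
    exact hQ
  subst hQ'
  rw [Ideal.mem_comap]
  have hu : IsUnit (algebraMap (Loc k d) (Localization.AtPrime (PP k d c)) s) :=
    IsLocalization.map_units (Localization.AtPrime (PP k d c)) (⟨s, hs⟩ : (PP k d c).primeCompl)
  rw [← Ideal.unit_mul_mem_iff_mem _ hu, ← map_mul]
  exact Ideal.mem_map_of_mem _ h

lemma vy_not_mem_PP (M : ℕ) : algebraMap (Poly k d) (Loc k d) (vy k d ^ M) ∉ PP k d c := by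
  intro h
  have h2 : vy k d ^ M ∈ (PP k d c).under (Poly k d) := h
  rw [PP, IsLocalization.under_map_of_isPrime_disjoint (org k d).primeCompl _ inferInstance
    (disj k d c)] at h2
  exact vy_not_mem k d c _ (Ideal.IsPrime.mem_of_pow_mem inferInstance M h2)

lemma not_le (r : ℕ) (hr : 2 ≤ r) : ¬ symbolicPower (PP k d c) (r * (c + 2)) ≤
    maximalIdeal (Loc k d) ^ (r * (c + 2) - r) * PP k d c ^ r := by
  intro hle
  obtain ⟨G, M, s, hG1, hG2, hs⟩ := exists_G k d c r hr
  have h1 : algebraMap (Poly k d) (Loc k d) G ∈ symbolicPower (PP k d c) (r * (c + 2)) := by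
    apply mem_symbolicPower_PP k d c _ _ (vy_not_mem_PP k d c M)
    rw [← map_mul, PP, ← Ideal.map_pow]
    exact Ideal.mem_map_of_mem _ hG1
  have h2 := Ideal.mem_map_of_mem (lax k d) (hle h1)
  rw [lax_algebraMap, hG2, Ideal.map_mul, Ideal.map_pow, Ideal.map_pow] at h2
  have h3 := Ideal.mul_mono (Ideal.pow_right_mono (lax_max k d) (r * (c + 2) - r))
    (Ideal.pow_right_mono (lax_PP k d c) r) h2
  rw [Ideal.span_singleton_pow, Ideal.span_singleton_pow, Ideal.span_singleton_mul_span_singleton,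
    Ideal.mem_span_singleton, ← pow_mul, ← pow_add] at h3
  have h4 := (pow_dvd_pow_iff PowerSeries.X_ne_zero PowerSeries.X_prime.not_isUnit).mp h3
  have h5 : r * (c + 2) = r * c + 2 * r := by ring
  omega

end Local

/-- Main result. -/
theorem result (k : Type u) [Field k] (n e : ℕ) (he : 2 ≤ e) (hn : e < n) :
    ∃ (R : Type u) (_ : CommRing R) (_ : Algebra k R) (_ : IsRegularLocalRing R) (P : Ideal R),
      ringKrullDim R = (n : WithBot ℕ∞) ∧ P.IsPrime ∧ bigHeight P = (e : ℕ∞) ∧
        ∀ r : ℕ, 2 ≤ r →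
          ¬ symbolicPower P (r * e) ≤ maximalIdeal R ^ (r * e - r) * P ^ r := by
  obtain ⟨c, rfl⟩ := Nat.exists_eq_add_of_le' he
  obtain ⟨d, rfl⟩ := Nat.exists_eq_add_of_le' (show 3 ≤ n by omega)
  refine ⟨Loc k d, inferInstance, inferInstance, inferInstance, PP k d c, ?_, inferInstance,
    bigHeight_PP k d c (by omega), fun r hr => not_le k d c r hr⟩
  rw [IsLocalization.AtPrime.ringKrullDim_eq_height (org k d), height_org]
  rfl

end Pool.Agent.Results.MP_c6dab2_ag.LocalContainmentFails
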